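import Mathlib
import Pool.Agent.Helper292.ForceCH

open Set Cardinal Equiv

set_option linter.all false

namespace Pool.Agent.Results.MP_618ed1_al.ConsistentlyYes

/-- `P` is a `k`-section of `ℕ`: an unordered partition of `ℕ` into exactly `k` infinite sets. -/
def IsSection (k : ℕ) (P : Set (Set ℕ)) : Prop :=
  P.Finite ∧ P.ncard = k ∧ (∀ A ∈ P, A.Infinite) ∧ (∀ A ∈ P, ∀ B ∈ P, A ≠ B → Disjoint A B) ∧
    ⋃₀ P = Set.univ

/-- The group `G` of permutations of `ℕ` is transitive on `k`-sections. -/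
def TransOnSections (G : Subgroup (Perm ℕ)) (k : ℕ) : Prop :=
  ∀ P Q : Set (Set ℕ), IsSection k P → IsSection k Q →
    ∃ g ∈ G, (fun A : Set ℕ => g '' A) '' P = Q

/-! ### Recursion along a well-order -/

theorem exists_rec {I : Type*} [LinearOrder I] [WellFoundedLT I] {X : Type*} [Inhabited X]
    (Phi : I → (I → X) → X → Prop)
    (hloc : ∀ i (D D' : I → X) x, (∀ j, j < i → D j = D' j) → Phi i D x → Phi i D' x)
    (hex : ∀ i D, ∃ x, Phi i D x) : ∃ D : I → X, ∀ i, Phi i D (D i) := by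
  classical
  let step : (i : I) → ((j : I) → j < i → X) → X := fun i D =>
    Classical.choose (hex i (fun j => if h : j < i then D j h else default))
  let D : I → X := WellFounded.fix (wellFounded_lt (α := I)) step
  refine ⟨D, fun i => ?_⟩
  have h1 : D i = step i (fun j _ => D j) := WellFounded.fix_eq _ _ _
  have h2 : Phi i (fun j => if h : j < i then D j else default) (step i (fun j _ => D j)) :=
    Classical.choose_spec (hex i (fun j => if h : j < i then D j else default))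
  rw [← h1] at h2
  refine hloc i _ _ _ ?_ h2
  intro j hj
  simp [hj]

/-! ### Finite partial bijections -/

/-- the points occurring in `p` -/
def pts (p : Finset (ℕ × ℕ)) : Finset ℕ := p.image Prod.fst ∪ p.image Prod.snd

theorem fst_mem_pts {p : Finset (ℕ × ℕ)} {a b : ℕ} (h : (a, b) ∈ p) : a ∈ pts p :=
  Finset.mem_union_left _ (Finset.mem_image.2 ⟨_, h, rfl⟩)

theorem snd_mem_pts {p : Finset (ℕ × ℕ)} {a b : ℕ} (h : (a, b) ∈ p) : b ∈ pts p :=
  Finset.mem_union_right _ (Finset.mem_image.2 ⟨_, h, rfl⟩)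

/-- the edge used by the letter `e` from `a` to `y` -/
def E (q : Set (ℕ × ℕ)) (e : Bool) (a y : ℕ) : Prop := if e then (a, y) ∈ q else (y, a) ∈ q

/-- the pair for the letter `e` from `a` to `y` -/
def mk (e : Bool) (a y : ℕ) : ℕ × ℕ := if e then (a, y) else (y, a)

theorem E_iff {q : Set (ℕ × ℕ)} {e : Bool} {a y : ℕ} : E q e a y ↔ mk e a y ∈ q := by
  cases e <;> simp [E, mk]

theorem E_pts {p : Finset (ℕ × ℕ)} {e : Bool} {a y : ℕ} (h : E (p : Set (ℕ × ℕ)) e a y) :
    a ∈ pts p ∧ y ∈ pts p := by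
  cases e
  · simp only [E, Bool.false_eq_true, if_false] at h
    exact ⟨snd_mem_pts h, fst_mem_pts h⟩
  · simp only [E, if_true] at h
    exact ⟨fst_mem_pts h, snd_mem_pts h⟩

/-- the colour condition and injectivity -/
structure Good {k : ℕ} (c c' : ℕ → Fin k) (p : Finset (ℕ × ℕ)) : Prop where
  col : ∀ a b, (a, b) ∈ p → c' b = c a
  inj1 : ∀ a b b', (a, b) ∈ p → (a, b') ∈ p → b = b'
  inj2 : ∀ a a' b, (a, b) ∈ p → (a', b) ∈ p → a = a'

/-- `v` is a fresh endpoint, relative to `p`, the other endpoint `u` and the set `F` -/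
structure Fresh (p : Finset (ℕ × ℕ)) (F : Set (Perm ℕ)) (u v : ℕ) : Prop where
  ne : v ≠ u
  np : v ∉ pts p
  h1 : ∀ h ∈ F, h v ∉ pts p ∧ h v ≠ u
  h2 : ∀ h ∈ F, h.symm v ∉ pts p ∧ h.symm v ≠ u
  h3 : ∀ h ∈ F, h v = v → h = 1

/-- one step: add a pair with a fresh endpoint -/
def Step {k : ℕ} (c c' : ℕ → Fin k) (F : Set (Perm ℕ)) (p q : Finset (ℕ × ℕ)) : Prop :=
  Good c c' q ∧ ∃ a b, q = insert (a, b) p ∧ (Fresh p F a b ∨ Fresh p F b a)

def Ext {k : ℕ} (c c' : ℕ → Fin k) (F : Set (Perm ℕ)) : Finset (ℕ × ℕ) → Finset (ℕ × ℕ) → Prop :=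
  Relation.ReflTransGen (Step c c' F)

theorem Step.subset {k : ℕ} {c c' : ℕ → Fin k} {F : Set (Perm ℕ)} {p q : Finset (ℕ × ℕ)}
    (h : Step c c' F p q) : p ⊆ q := by
  obtain ⟨-, a, b, rfl, -⟩ := h
  exact Finset.subset_insert _ _

theorem Ext.subset {k : ℕ} {c c' : ℕ → Fin k} {F : Set (Perm ℕ)} {p q : Finset (ℕ × ℕ)}
    (h : Ext c c' F p q) : p ⊆ q := by
  induction h with
  | refl => exact Finset.Subset.refl _
  | tail _ h ih => exact ih.trans h.subset

theorem Fresh.mono {p : Finset (ℕ × ℕ)} {F F' : Set (Perm ℕ)} (hF : F ⊆ F') {u v : ℕ}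
    (h : Fresh p F' u v) : Fresh p F u v :=
  ⟨h.ne, h.np, fun f hf => h.h1 f (hF hf), fun f hf => h.h2 f (hF hf), fun f hf => h.h3 f (hF hf)⟩

theorem Ext.mono {k : ℕ} {c c' : ℕ → Fin k} {F F' : Set (Perm ℕ)} (hF : F ⊆ F')
    {p q : Finset (ℕ × ℕ)} (h : Ext c c' F' p q) : Ext c c' F p q := by
  refine Relation.ReflTransGen.mono ?_ _ _ h
  rintro p q ⟨hg, a, b, hq, hab⟩
  exact ⟨hg, a, b, hq, hab.imp (Fresh.mono hF) (Fresh.mono hF)⟩

theorem Ext.good {k : ℕ} {c c' : ℕ → Fin k} {F : Set (Perm ℕ)} {p q : Finset (ℕ × ℕ)}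
    (h : Ext c c' F p q) (hp : Good c c' p) : Good c c' q := by
  induction h with
  | refl => exact hp
  | tail _ h _ => exact h.1

/-- fresh points exist in every infinite set -/
theorem exists_fresh (p : Finset (ℕ × ℕ)) {F : Set (Perm ℕ)} (hF : F.Finite)
    (hfix : ∀ h ∈ F, h ≠ 1 → {x | h x = x}.Finite) (u : ℕ) {Z : Set ℕ} (hZ : Z.Infinite) :
    ∃ v ∈ Z, Fresh p F u v := by
  classical
  let W : Finset ℕ := insert u (pts p)
  have hbad : ((W : Set ℕ) ∪ (⋃ h ∈ F, (fun x => h x) ⁻¹' (W : Set ℕ)) ∪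
      (⋃ h ∈ F, (fun x => h.symm x) ⁻¹' (W : Set ℕ)) ∪
      (⋃ h ∈ F, {x | h x = x ∧ h ≠ 1})).Finite := by
    refine (((W.finite_toSet).union ?_).union ?_).union ?_
    · exact hF.biUnion fun h _ => (W.finite_toSet).preimage (h.injective.injOn)
    · exact hF.biUnion fun h _ => (W.finite_toSet).preimage (h.symm.injective.injOn)
    · refine hF.biUnion fun h hh => ?_
      by_cases h1 : h = 1
      · refine Set.finite_empty.subset ?_
        rintro x ⟨-, hx⟩
        exact absurd h1 hx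
      · exact (hfix h hh h1).subset fun x hx => hx.1
  obtain ⟨v, hvZ, hv⟩ := (hZ.sdiff hbad).nonempty
  simp only [mem_union, mem_iUnion, not_or, not_exists] at hv
  obtain ⟨⟨⟨hv1, hv2⟩, hv3⟩, hv4⟩ := hv
  have hW : ∀ x, x ∉ (W : Set ℕ) → x ∉ pts p ∧ x ≠ u := by
    intro x hx
    simp only [W, Finset.coe_insert, Set.mem_insert_iff, not_or] at hx
    exact ⟨hx.2, hx.1⟩
  refine ⟨v, hvZ, (hW v hv1).2, (hW v hv1).1, fun h hh => hW _ (hv2 h hh),
    fun h hh => hW _ (hv3 h hh), fun h hh hx => ?_⟩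
  by_contra h1
  exact hv4 h hh ⟨hx, h1⟩

/-- adding the edge for the letter `e` from `a` to `y` -/
theorem step_add {k : ℕ} {c c' : ℕ → Fin k} {F : Set (Perm ℕ)} {p : Finset (ℕ × ℕ)}
    (hp : Good c c' p) (e : Bool) {a y : ℕ}
    (hcol : (if e then c' else c) y = (if e then c else c') a)
    (ha : ∀ z, ¬ E (p : Set (ℕ × ℕ)) e a z) (hy : Fresh p F a y) :
    Step c c' F p (insert (mk e a y) p) := by
  classical
  cases e
  · simp only [Bool.false_eq_true, if_false] at hcol
    simp only [E, Bool.false_eq_true, if_false] at ha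
    refine ⟨⟨?_, ?_, ?_⟩, y, a, by simp [mk], Or.inr hy⟩
    · intro x z hxz
      rcases Finset.mem_insert.1 hxz with h | h
      · simp only [mk, Bool.false_eq_true, if_false, Prod.mk.injEq] at h
        rw [h.1, h.2, hcol]
      · exact hp.col _ _ h
    · intro x z z' h h'
      rcases Finset.mem_insert.1 h with h | h <;> rcases Finset.mem_insert.1 h' with h' | h'
      · simp only [mk, Bool.false_eq_true, if_false, Prod.mk.injEq] at h h'
        rw [h.2, h'.2]
      · simp only [mk, Bool.false_eq_true, if_false, Prod.mk.injEq] at h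
        rw [h.1] at h'
        exact absurd (fst_mem_pts h') hy.np
      · simp only [mk, Bool.false_eq_true, if_false, Prod.mk.injEq] at h'
        rw [h'.1] at h
        exact absurd (fst_mem_pts h) hy.np
      · exact hp.inj1 _ _ _ h h'
    · intro x x' z h h'
      rcases Finset.mem_insert.1 h with h | h <;> rcases Finset.mem_insert.1 h' with h' | h'
      · simp only [mk, Bool.false_eq_true, if_false, Prod.mk.injEq] at h h'
        rw [h.1, h'.1]
      · simp only [mk, Bool.false_eq_true, if_false, Prod.mk.injEq] at h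
        rw [h.2] at h'
        exact absurd h' (ha _)
      · simp only [mk, Bool.false_eq_true, if_false, Prod.mk.injEq] at h'
        rw [h'.2] at h
        exact absurd h (ha _)
      · exact hp.inj2 _ _ _ h h'
  · simp only [if_true] at hcol
    simp only [E, if_true] at ha
    refine ⟨⟨?_, ?_, ?_⟩, a, y, by simp [mk], Or.inl hy⟩
    · intro x z hxz
      rcases Finset.mem_insert.1 hxz with h | h
      · simp only [mk, if_true, Prod.mk.injEq] at h
        rw [h.1, h.2, hcol]
      · exact hp.col _ _ h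
    · intro x z z' h h'
      rcases Finset.mem_insert.1 h with h | h <;> rcases Finset.mem_insert.1 h' with h' | h'
      · simp only [mk, if_true, Prod.mk.injEq] at h h'
        rw [h.2, h'.2]
      · simp only [mk, if_true, Prod.mk.injEq] at h
        rw [h.1] at h'
        exact absurd h' (ha _)
      · simp only [mk, if_true, Prod.mk.injEq] at h'
        rw [h'.1] at h
        exact absurd h (ha _)
      · exact hp.inj1 _ _ _ h h'
    · intro x x' z h h'
      rcases Finset.mem_insert.1 h with h | h <;> rcases Finset.mem_insert.1 h' with h' | h'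
      · simp only [mk, if_true, Prod.mk.injEq] at h h'
        rw [h.1, h'.1]
      · simp only [mk, if_true, Prod.mk.injEq] at h
        rw [h.2] at h'
        exact absurd (snd_mem_pts h') hy.np
      · simp only [mk, if_true, Prod.mk.injEq] at h'
        rw [h'.2] at h
        exact absurd (snd_mem_pts h) hy.np
      · exact hp.inj2 _ _ _ h h'

/-! ### Closed paths do not use fresh edges -/

theorem no_new_edge {k : ℕ} {c c' : ℕ → Fin k} {F : Set (Perm ℕ)} {p q : Finset (ℕ × ℕ)}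
    (hs : Step c c' F p q) (e : ℕ → Bool) (h : ℕ → Perm ℕ) (hF : ∀ i, h i ∈ F)
    (hred : ∀ i, e (i + 1) ≠ e i → h i ≠ 1) (x y : ℕ → ℕ) (n : ℕ) (hn : 0 < n)
    (hper : ∀ i, x (i + n) = x i) (hpere : ∀ i, e (i + n) = e i) (hpery : ∀ i, y (i + n) = y i)
    (hxy : ∀ i, x (i + 1) = h i (y i))
    (hq : ∀ i, E (q : Set (ℕ × ℕ)) (e i) (x i) (y i)) :
    ∀ i, E (p : Set (ℕ × ℕ)) (e i) (x i) (y i) := by
  classical
  obtain ⟨hg, a, b, rfl, hab⟩ := hs
  -- the fresh endpoint `v`, the other endpoint `u`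
  obtain ⟨u, v, hfr, huv⟩ : ∃ u v, Fresh p F u v ∧ ((a, b) = (u, v) ∨ (a, b) = (v, u)) := by
    rcases hab with hab | hab
    · exact ⟨a, b, hab, Or.inl rfl⟩
    · exact ⟨b, a, hab, Or.inr rfl⟩
  -- an edge is old or has endpoints `u`, `v`
  have key : ∀ i, E (p : Set (ℕ × ℕ)) (e i) (x i) (y i) ∨
      (mk (e i) (x i) (y i) = (a, b)) := by
    intro i
    have := hq i
    rw [E_iff, Finset.coe_insert] at this
    rcases this with h | h
    · exact Or.inr h
    · exact Or.inl (E_iff.2 h)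
  have key2 : ∀ i, mk (e i) (x i) (y i) = (a, b) → (x i = u ∧ y i = v) ∨ (x i = v ∧ y i = u) := by
    intro i hi
    rcases huv with h | h <;> rw [h] at hi <;> cases hei : e i <;> rw [hei] at hi <;>
      simp only [mk, Bool.false_eq_true, if_false, if_true, Prod.mk.injEq] at hi <;> tauto
  -- entering `v`
  have enter : ∀ i, mk (e i) (x i) (y i) = (a, b) → y i = v → False := by
    intro i hi hy
    have hx : x i = u := by
      rcases key2 i hi with h' | h'
      · exact h'.1
      · exact absurd (hy.symm.trans h'.2) hfr.ne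
    have h1 : x (i + 1) = h i v := by rw [hxy, hy]
    rcases key (i + 1) with hk | hk
    · exact (hfr.h1 _ (hF i)).1 (h1 ▸ (E_pts hk).1)
    · rcases key2 _ hk with h' | h'
      · exact (hfr.h1 _ (hF i)).2 (h1 ▸ h'.1)
      · have h3 : h i = 1 := hfr.h3 _ (hF i) (h1 ▸ h'.1)
        have h4 : e (i + 1) = e i := by
          by_contra hne
          exact hred i hne h3
        have h5 : mk (e (i + 1)) (x (i + 1)) (y (i + 1)) = mk (e i) (x i) (y i) := by rw [hi, hk]
        rw [h4] at h5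
        have h6 : x (i + 1) = x i := by
          cases hei : e i <;> rw [hei] at h5 <;>
            simp only [mk, Bool.false_eq_true, if_false, if_true, Prod.mk.injEq] at h5
          · exact h5.2
          · exact h5.1
        rw [h'.1, hx] at h6
        exact hfr.ne h6
  -- leaving `v`
  have leave : ∀ i, mk (e (i + 1)) (x (i + 1)) (y (i + 1)) = (a, b) → x (i + 1) = v → False := by
    intro i hi hx
    have hy : y (i + 1) = u := by
      rcases key2 (i + 1) hi with h' | h'
      · exact absurd (hx.symm.trans h'.1) hfr.ne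
      · exact h'.2
    have h1 : y i = (h i).symm v := by
      rw [← hx, hxy]; simp
    rcases key i with hk | hk
    · exact (hfr.h2 _ (hF i)).1 (h1 ▸ (E_pts hk).2)
    · rcases key2 _ hk with h' | h'
      · have h3 : h i = 1 := by
          refine hfr.h3 _ (hF i) ?_
          have : (h i).symm v = v := by rw [← h1]; exact h'.2
          rw [Equiv.symm_apply_eq] at this
          exact this.symm
        exact enter i hk h'.2
      · exact (hfr.h2 _ (hF i)).2 (h1 ▸ h'.2)
  intro i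
  rcases key i with hk | hk
  · exact hk
  · exfalso
    rcases key2 i hk with h' | h'
    · exact enter i hk h'.2
    · obtain ⟨m, hm⟩ : ∃ m, i + n = m + 1 := ⟨i + n - 1, by omega⟩
      refine leave m ?_ ?_
      · rw [← hm, hper, hpere, hpery]; exact hk
      · rw [← hm, hper]; exact h'.1

theorem no_new_edges {k : ℕ} {c c' : ℕ → Fin k} {F : Set (Perm ℕ)} {p q : Finset (ℕ × ℕ)}
    (hs : Ext c c' F p q) (e : ℕ → Bool) (h : ℕ → Perm ℕ) (hF : ∀ i, h i ∈ F)
    (hred : ∀ i, e (i + 1) ≠ e i → h i ≠ 1) (x y : ℕ → ℕ) (n : ℕ) (hn : 0 < n)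
    (hper : ∀ i, x (i + n) = x i) (hpere : ∀ i, e (i + n) = e i) (hpery : ∀ i, y (i + n) = y i)
    (hxy : ∀ i, x (i + 1) = h i (y i))
    (hq : ∀ i, E (q : Set (ℕ × ℕ)) (e i) (x i) (y i)) :
    ∀ i, E (p : Set (ℕ × ℕ)) (e i) (x i) (y i) := by
  induction hs with
  | refl => exact hq
  | tail _ hst ih =>
    exact ih (no_new_edge hst e h hF hred x y n hn hper hpere hpery hxy hq)

/-! ### Routing -/

/-- source colouring of the letter `e` -/
def scol {k : ℕ} (c c' : ℕ → Fin k) (e : Bool) : ℕ → Fin k := if e then c else c'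

/-- target colouring of the letter `e` -/
def tcol {k : ℕ} (c c' : ℕ → Fin k) (e : Bool) : ℕ → Fin k := if e then c' else c

/-- the word `L` (first letter applied first) carries `a` to `z` inside `q` -/
def Route (q : Set (ℕ × ℕ)) : List (Bool × Perm ℕ) → ℕ → ℕ → Prop
  | [], a, z => a = z
  | (e, h) :: L, a, z => ∃ y, E q e a y ∧ Route q L (h y) z

theorem E.mono {q q' : Set (ℕ × ℕ)} (h : q ⊆ q') {e : Bool} {a y : ℕ} (ha : E q e a y) :
    E q' e a y := by
  rw [E_iff] at *
  exact h ha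

theorem Route.mono {q q' : Set (ℕ × ℕ)} (h : q ⊆ q') :
    ∀ (L : List (Bool × Perm ℕ)) (a z : ℕ), Route q L a z → Route q' L a z
  | [], _, _, hr => hr
  | (_, _) :: L, _, _, ⟨y, hy, hr⟩ => ⟨y, hy.mono h, Route.mono h L _ _ hr⟩

def LastOK {k : ℕ} (c c' : ℕ → Fin k) : List (Bool × Perm ℕ) → Fin k → Set ℕ → Prop
  | [], _, _ => False
  | [(e, h)], j, Z => {y | tcol c c' e y = j ∧ h y ∈ Z}.Infinite
  | _ :: x :: L, j, Z => LastOK c c' (x :: L) j Z

def StartOK {k : ℕ} (c c' : ℕ → Fin k) (i : Fin k) (p : Finset (ℕ × ℕ)) (a : ℕ) :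
    List (Bool × Perm ℕ) → Prop
  | [] => False
  | (e, _) :: _ => scol c c' e a = i ∧ ∀ z, ¬ E (p : Set (ℕ × ℕ)) e a z

def Red (L : List (Bool × Perm ℕ)) : Prop :=
  List.IsChain (fun x x' : Bool × Perm ℕ => x'.1 ≠ x.1 → x.2 ≠ 1) L

theorem pigeon {k : ℕ} {Z : Set ℕ} (hZ : Z.Infinite) (f : ℕ → Fin k) :
    ∃ j, {y | y ∈ Z ∧ f y = j}.Infinite := by
  by_contra hcon
  push Not at hcon
  refine hZ ((Set.finite_iUnion hcon).subset ?_)
  intro y hy
  exact mem_iUnion.2 ⟨f y, hy, rfl⟩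

theorem preim_infinite (h : Perm ℕ) {Z : Set ℕ} (hZ : Z.Infinite) : {y | h y ∈ Z}.Infinite := by
  have : {y | h y ∈ Z} = h ⁻¹' Z := rfl
  rw [this]
  refine hZ.preimage ?_
  intro z _
  exact ⟨h.symm z, by simp⟩

theorem exists_lastOK {k : ℕ} (c c' : ℕ → Fin k) {Z : Set ℕ} (hZ : Z.Infinite) :
    ∀ L : List (Bool × Perm ℕ), L ≠ [] → ∃ j, LastOK c c' L j Z
  | [], h => absurd rfl h
  | [(e, h)], _ => by
    obtain ⟨j, hj⟩ := pigeon (preim_infinite h hZ) (tcol c c' e)
    refine ⟨j, hj.mono ?_⟩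
    rintro y ⟨h1, h2⟩
    exact ⟨h2, h1⟩
  | _ :: x :: L, _ => exists_lastOK c c' hZ (x :: L) (by simp)

theorem routing {k : ℕ} {c c' : ℕ → Fin k} (hc : ∀ j, {x | c x = j}.Infinite)
    (hc' : ∀ j, {x | c' x = j}.Infinite) :
    ∀ L : List (Bool × Perm ℕ), Red L → ∀ j, ∃ i, ∀ Z, LastOK c c' L j Z →
      ∀ (F : Set (Perm ℕ)), F.Finite → (∀ h ∈ F, h ≠ 1 → {x | h x = x}.Finite) →
      (∀ x ∈ L, x.2 ∈ F) → ∀ p : Finset (ℕ × ℕ), Good c c' p → ∀ a, StartOK c c' i p a L →
      ∃ q, Ext c c' F p q ∧ ∃ z ∈ Z, Route (q : Set (ℕ × ℕ)) L a z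
  | [], _ => fun j => ⟨j, fun Z hZ => absurd hZ id⟩
  | [(e, h)], _ => fun j => by
    refine ⟨j, fun Z hZ F hF hfix hL p hp a ha => ?_⟩
    obtain ⟨y, ⟨hy1, hy2⟩, hy3⟩ := exists_fresh p hF hfix a hZ
    have hst := step_add hp e (a := a) (y := y) (F := F) (by
      have h1 := hy1
      have h2 := ha.1
      unfold tcol at h1
      unfold scol at h2
      rw [h1, h2]) ha.2 hy3
    refine ⟨_, Relation.ReflTransGen.single hst, h y, hy2, y, ?_, rfl⟩
    rw [E_iff]
    simp
  | (e, h) :: (e', h') :: L, hred => fun j => by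
    have hred' : Red ((e', h') :: L) := List.IsChain.tail hred
    have hhead : e' ≠ e → h ≠ 1 := (List.isChain_cons_cons.1 hred).1
    obtain ⟨i', hi'⟩ := routing hc hc' ((e', h') :: L) hred' j
    have hsc : {x | scol c c' e' x = i'}.Infinite := by
      cases e'
      · exact hc' i'
      · exact hc i'
    obtain ⟨i, hi⟩ := pigeon (preim_infinite h hsc) (tcol c c' e)
    refine ⟨i, fun Z hZ F hF hfix hL p hp a ha => ?_⟩
    obtain ⟨y, ⟨hy1, hy2⟩, hy3⟩ := exists_fresh p hF hfix a hi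
    have hst := step_add hp e (a := a) (y := y) (F := F) (by
      have h1 := hy2
      have h2 := ha.1
      unfold tcol at h1
      unfold scol at h2
      rw [h1, h2]) ha.2 hy3
    have hhF : h ∈ F := hL (e, h) (by simp)
    have hE : ∀ z, ¬ E ((insert (mk e a y) p : Finset (ℕ × ℕ)) : Set (ℕ × ℕ)) e' (h y) z := by
      intro z hz
      rw [E_iff, Finset.coe_insert] at hz
      rcases hz with hz | hz
      · by_cases hee : e' = e
        · subst hee
          have : h y = a := by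
            cases e' <;> simp only [mk, Bool.false_eq_true, if_false, if_true, Prod.mk.injEq] at hz
            · exact hz.2
            · exact hz.1
          exact (hy3.h1 h hhF).2 this
        · have : h y = y := by
            cases e' <;> cases e <;>
              simp only [mk, Bool.false_eq_true, if_false, if_true, Prod.mk.injEq] at hz hee
            · exact absurd trivial hee
            · exact hz.2
            · exact hz.1
            · exact absurd trivial hee
          exact hhead hee (hy3.h3 h hhF this)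
      · exact (hy3.h1 h hhF).1 (E_pts (E_iff.2 hz)).1
    obtain ⟨q, hq, z, hz, hr⟩ := hi' Z hZ F hF hfix (fun x hx => hL x (List.mem_cons_of_mem _ hx))
      _ hst.1 (h y) ⟨hy1, hE⟩
    refine ⟨q, Relation.ReflTransGen.head hst hq, z, hz, y, ?_, hr⟩
    rw [E_iff]
    exact hq.subset (Finset.mem_insert_self _ _)

/-- the task for one word -/
theorem task {k : ℕ} {c c' : ℕ → Fin k} (hc : ∀ j, {x | c x = j}.Infinite)
    (hc' : ∀ j, {x | c' x = j}.Infinite) {x0 x1 : ℕ → Fin (k + 1)}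
    (hx1 : ∀ j, {x | x1 x = j}.Infinite) (h0 : Perm ℕ) (L : List (Bool × Perm ℕ)) (hne : L ≠ [])
    (hred : Red L) {F : Set (Perm ℕ)} (hF : F.Finite)
    (hfix : ∀ h ∈ F, h ≠ 1 → {x | h x = x}.Finite) (hL : ∀ x ∈ L, x.2 ∈ F)
    (p : Finset (ℕ × ℕ)) (hp : Good c c' p) :
    ∃ q, Ext c c' F p q ∧ ∃ a b z z', Route (q : Set (ℕ × ℕ)) L (h0 a) z ∧
      Route (q : Set (ℕ × ℕ)) L (h0 b) z' ∧ x0 a = x0 b ∧ x1 z ≠ x1 z' := by
  classical
  choose J hJ using fun i => exists_lastOK c c' (hx1 i) L hne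
  obtain ⟨i1, i2, hi, hJi⟩ := Fintype.exists_ne_map_eq_of_card_lt J (by simp)
  obtain ⟨i, hroute⟩ := routing hc hc' L hred (J i1)
  obtain ⟨⟨e, h⟩, L', rfl⟩ := List.exists_cons_of_ne_nil hne
  have hsc : {x | scol c c' e x = i}.Infinite := by
    cases e
    · exact hc' i
    · exact hc i
  obtain ⟨m, hm⟩ := pigeon (preim_infinite h0 hsc) x0
  have hpick : ∀ q : Finset (ℕ × ℕ), ∃ a, x0 a = m ∧ StartOK c c' i q (h0 a) ((e, h) :: L') := by
    intro q
    obtain ⟨a, ⟨ha1, ha2⟩, ha3⟩ := (hm.sdiff (((pts q).finite_toSet).preimage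
      (h0.injective.injOn))).nonempty
    exact ⟨a, ha2, ha1, fun z hz => ha3 (E_pts hz).1⟩
  obtain ⟨a, ha1, ha2⟩ := hpick p
  obtain ⟨q1, hq1, z1, hz1, hr1⟩ := hroute _ (hJ i1) F hF hfix hL p hp (h0 a) ha2
  obtain ⟨b, hb1, hb2⟩ := hpick q1
  obtain ⟨q2, hq2, z2, hz2, hr2⟩ := hroute _ (hJi ▸ hJ i2) F hF hfix hL q1 (hq1.good hp) (h0 b) hb2
  refine ⟨q2, hq1.trans hq2, a, b, z1, z2, hr1.mono ?_, hr2, ha1.trans hb1.symm, ?_⟩
  · exact_mod_cast hq2.subset
  · have h1 : x1 z1 = i1 := hz1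
    have h2 : x1 z2 = i2 := hz2
    rw [h1, h2]
    exact hi

/-- put a point into the domain (`e = true`) or the range (`e = false`) -/
theorem extend {k : ℕ} {c c' : ℕ → Fin k} (hc : ∀ j, {x | c x = j}.Infinite)
    (hc' : ∀ j, {x | c' x = j}.Infinite) {F : Set (Perm ℕ)} (hF : F.Finite)
    (hfix : ∀ h ∈ F, h ≠ 1 → {x | h x = x}.Finite)
    (p : Finset (ℕ × ℕ)) (hp : Good c c' p) (e : Bool) (n : ℕ) :
    ∃ q, Ext c c' F p q ∧ ∃ y, E (q : Set (ℕ × ℕ)) e n y := by
  classical
  by_cases hn : ∃ y, E (p : Set (ℕ × ℕ)) e n y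
  · exact ⟨p, Relation.ReflTransGen.refl, hn⟩
  push Not at hn
  have htc : {x | tcol c c' e x = scol c c' e n}.Infinite := by
    cases e
    · exact hc _
    · exact hc' _
  obtain ⟨y, hy1, hy3⟩ := exists_fresh p hF hfix n htc
  have hst := step_add hp e (a := n) (y := y) (F := F) hy1 hn hy3
  refine ⟨_, Relation.ReflTransGen.single hst, y, ?_⟩
  rw [E_iff]
  simp

/-! ### Words in `g` -/

/-- `g` or its inverse -/
def gp (g : Perm ℕ) (e : Bool) : Perm ℕ := if e then g else g⁻¹

theorem gp_mul_gp (g : Perm ℕ) {e e' : Bool} (h : e' ≠ e) : gp g e' * gp g e = 1 := by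
  cases e <;> cases e' <;> simp_all [gp]

/-- value of a word (first letter applied first) -/
def ev (g : Perm ℕ) : List (Bool × Perm ℕ) → Perm ℕ
  | [] => 1
  | (e, h) :: L => ev g L * (h * gp g e)

theorem ev_append (g : Perm ℕ) : ∀ A B : List (Bool × Perm ℕ), ev g (A ++ B) = ev g B * ev g A
  | [], B => by simp [ev]
  | (e, h) :: A, B => by
    rw [List.cons_append, ev, ev, ev_append g A B, mul_assoc]

def Graph (g : Perm ℕ) : Set (ℕ × ℕ) := {p | g p.1 = p.2}

theorem E_graph {g : Perm ℕ} {e : Bool} {a y : ℕ} : E (Graph g) e a y ↔ gp g e a = y := by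
  cases e
  · simp only [E, gp, Graph, Bool.false_eq_true, if_false, Set.mem_setOf_eq]
    rw [Perm.inv_eq_iff_eq]
    exact eq_comm
  · simp [E, gp, Graph]

theorem route_graph {g : Perm ℕ} : ∀ (L : List (Bool × Perm ℕ)) (a z : ℕ),
    Route (Graph g) L a z → ev g L a = z
  | [], a, z, h => h
  | (e, h) :: L, a, z, ⟨y, hy, hr⟩ => by
    have h1 := route_graph L _ _ hr
    rw [E_graph] at hy
    rw [ev]
    simp only [Perm.mul_apply]
    rw [hy, h1]

/-- reduced representations -/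
def Rep (H : Subgroup (Perm ℕ)) (g f : Perm ℕ) : Prop :=
  ∃ (L : List (Bool × Perm ℕ)) (h0 : Perm ℕ), h0 ∈ H ∧ (∀ x ∈ L, x.2 ∈ H) ∧ Red L ∧
    f = ev g L * h0

theorem Rep.mul_gp {H : Subgroup (Perm ℕ)} {g f : Perm ℕ} (h : Rep H g f) (e : Bool) :
    Rep H g (f * gp g e) := by
  obtain ⟨L, h0, hh0, hL, hred, rfl⟩ := h
  rcases L with _ | ⟨⟨e', h'⟩, L⟩
  · refine ⟨[(e, h0)], 1, H.one_mem, ?_, List.isChain_singleton _, ?_⟩
    · intro x hx
      rw [List.mem_singleton] at hx
      subst hx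
      exact hh0
    · simp [ev]
  · by_cases hc : e' ≠ e ∧ h0 = 1
    · refine ⟨L, h', hL (e', h') (by simp), fun x hx => hL x (List.mem_cons_of_mem _ hx),
        List.IsChain.tail hred, ?_⟩
      rw [hc.2, ev]
      simp only [mul_one, mul_assoc]
      rw [gp_mul_gp g hc.1, mul_one]
    · refine ⟨(e, h0) :: (e', h') :: L, 1, H.one_mem, ?_, ?_, ?_⟩
      · intro x hx
        rcases List.mem_cons.1 hx with rfl | hx
        · exact hh0
        · exact hL x hx
      · refine List.isChain_cons_cons.2 ⟨fun h1 h2 => hc ⟨h1, h2⟩, hred⟩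
      · simp only [ev, mul_one, mul_assoc]

theorem exists_rep {H : Subgroup (Perm ℕ)} {g f : Perm ℕ}
    (hf : f ∈ Subgroup.closure ((H : Set (Perm ℕ)) ∪ {g})) : Rep H g f := by
  induction hf using Subgroup.closure_induction_right with
  | one => exact ⟨[], 1, H.one_mem, by simp, List.isChain_nil, by simp [ev]⟩
  | mul_right x hx y hy ih =>
    rcases hy with hy | hy
    · obtain ⟨L, h0, hh0, hL, hred, rfl⟩ := ih
      exact ⟨L, h0 * y, H.mul_mem hh0 hy, hL, hred, by rw [mul_assoc]⟩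
    · rw [Set.mem_singleton_iff] at hy
      subst hy
      exact ih.mul_gp true
  | mul_inv_cancel x hx y hy ih =>
    rcases hy with hy | hy
    · obtain ⟨L, h0, hh0, hL, hred, rfl⟩ := ih
      exact ⟨L, h0 * y⁻¹, H.mul_mem hh0 (H.inv_mem hy), hL, hred, by rw [mul_assoc]⟩
    · rw [Set.mem_singleton_iff] at hy
      subst hy
      exact ih.mul_gp false

theorem fix_conj {f u : Perm ℕ} (h : {x | (u * f * u⁻¹) x = x}.Finite) : {x | f x = x}.Finite := by
  refine (h.preimage (f := u) u.injective.injOn).subset ?_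
  intro x hx
  have hx' : f x = x := hx
  have h1 : u⁻¹ (u x) = x := by simp
  simp only [Set.mem_preimage, Set.mem_setOf_eq, Perm.mul_apply, h1, hx']

/-- the genericity property of `g` -/
def Gen {k : ℕ} (c c' : ℕ → Fin k) (H : Subgroup (Perm ℕ)) (g : Perm ℕ) : Prop :=
  ∀ F : Set (Perm ℕ), F.Finite → F ⊆ H → ∃ p : Finset (ℕ × ℕ), ∀ S : Finset (ℕ × ℕ),
    (S : Set (ℕ × ℕ)) ⊆ Graph g → ∃ q, Ext c c' F p q ∧ S ⊆ q

theorem cyc_fix {k : ℕ} {c c' : ℕ → Fin k} {H : Subgroup (Perm ℕ)} {g : Perm ℕ}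
    (hg : Gen c c' H g) (L : List (Bool × Perm ℕ)) (n : ℕ) (hn : 0 < n) (hLn : L.length = n)
    (hLH : ∀ x ∈ L, x.2 ∈ H) (hred : Red L)
    (hcyc : (L[0]'(by omega)).1 ≠ (L[n - 1]'(by omega)).1 → (L[n - 1]'(by omega)).2 ≠ 1) :
    {x | ev g L x = x}.Finite := by
  classical
  obtain ⟨p, hp⟩ := hg {h | ∃ x ∈ L, x.2 = h} (by
    have : {h | ∃ x ∈ L, x.2 = h} = ((L.map Prod.snd).toFinset : Set (Perm ℕ)) := by
      ext h; simp
    rw [this]; exact Finset.finite_toSet _) (by
    rintro h ⟨x, hx, rfl⟩; exact hLH x hx)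
  refine (pts p).finite_toSet.subset ?_
  intro a ha
  have ha' : ev g L a = a := ha
  have hlt : ∀ i, i % n < L.length := fun i => by rw [hLn]; exact Nat.mod_lt _ hn
  let e : ℕ → Bool := fun i => (L[i % n]'(hlt i)).1
  let h : ℕ → Perm ℕ := fun i => (L[i % n]'(hlt i)).2
  let x : ℕ → ℕ := fun i => ev g (L.take (i % n)) a
  let y : ℕ → ℕ := fun i => gp g (e i) (x i)
  have htake : ∀ m (hm : m < L.length), ev g (L.take (m + 1)) =
      (L[m]).2 * gp g (L[m]).1 * ev g (L.take m) := by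
    intro m hm
    rw [List.take_succ_eq_append_getElem hm, ev_append]
    simp [ev]
  have hper : ∀ i, x (i + n) = x i := fun i => by simp [x]
  have hpere : ∀ i, e (i + n) = e i := fun i => by simp [e]
  have hperh : ∀ i, h (i + n) = h i := fun i => by simp [h]
  have hpery : ∀ i, y (i + n) = y i := fun i => by simp only [y, hper, hpere]
  have hsucc : ∀ i, ((i + 1) % n = i % n + 1 ∧ i % n + 1 < n) ∨
      ((i + 1) % n = 0 ∧ i % n + 1 = n) := by
    intro i
    have h1 := Nat.mod_lt i hn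
    rcases Nat.lt_or_ge (i % n + 1) n with h2 | h2
    · left
      refine ⟨?_, h2⟩
      rw [Nat.add_mod]
      rcases Nat.lt_or_ge 1 n with h3 | h3
      · rw [Nat.mod_eq_of_lt h3, Nat.mod_eq_of_lt h2]
      · omega
    · right
      have h3 : i % n + 1 = n := by omega
      refine ⟨?_, h3⟩
      have h4 : n ∣ i + 1 := by
        have := Nat.div_add_mod i n
        refine ⟨i / n + 1, ?_⟩
        rw [mul_add, mul_one]
        omega
      exact Nat.mod_eq_zero_of_dvd h4
  have hxy : ∀ i, x (i + 1) = h i (y i) := by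
    intro i
    have h1 : h i (y i) = ev g (L.take (i % n + 1)) a := by
      rw [htake _ (hlt i)]
      simp only [Perm.mul_apply]
      rfl
    rw [h1]
    rcases hsucc i with ⟨h2, -⟩ | ⟨h2, h3⟩
    · simp only [x, h2]
    · simp only [x, h2, h3]
      rw [← hLn, List.take_length, List.take_zero, ha']
      rfl
  have hred' : ∀ i, e (i + 1) ≠ e i → h i ≠ 1 := by
    intro i hi
    rcases hsucc i with ⟨h2, h3⟩ | ⟨h2, h3⟩
    · have hch := List.isChain_iff_getElem.1 hred (i % n) (by omega)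
      refine hch ?_
      intro heq
      apply hi
      simp only [e, h2]
      exact heq
    · have h4 : i % n = n - 1 := by omega
      have h5 : h i = (L[n - 1]'(by omega)).2 := by simp only [h, h4]
      rw [h5]
      refine hcyc ?_
      intro heq
      apply hi
      simp only [e, h2, h4]
      exact heq
  let S : Finset (ℕ × ℕ) := (Finset.range n).image fun i => mk (e i) (x i) (y i)
  have hS : ∀ i, mk (e i) (x i) (y i) ∈ S := by
    intro i
    have h1 : ∀ j, e (i % n + n * j) = e (i % n) ∧ x (i % n + n * j) = x (i % n) := by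
      intro j
      simp [e, x]
    have h2 := h1 (i / n)
    rw [Nat.mod_add_div] at h2
    refine Finset.mem_image.2 ⟨i % n, Finset.mem_range.2 (Nat.mod_lt _ hn), ?_⟩
    simp only [y, h2.1, h2.2]
  obtain ⟨q, hq, hSq⟩ := hp S (by
    intro z hz
    obtain ⟨i, -, rfl⟩ := Finset.mem_image.1 (Finset.mem_coe.1 hz)
    exact E_iff.1 (E_graph.2 rfl))
  have hfin := no_new_edges hq e h (fun i => ⟨_, List.getElem_mem _, rfl⟩) hred' x y n hn hper hpere
    hpery hxy (fun i => E_iff.2 (hSq (hS i))) 0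
  have hx0 : x 0 = a := by simp [x, ev]
  rw [hx0] at hfin
  exact (E_pts hfin).1

theorem red_last {L : List (Bool × Perm ℕ)} {x x' : Bool × Perm ℕ} (h : Red (L ++ [x]))
    (hx : x'.1 = x.1) : Red (L ++ [x']) := by
  unfold Red at *
  rw [List.isChain_append] at *
  refine ⟨h.1, List.isChain_singleton _, ?_⟩
  intro y hy z hz
  have h1 := h.2.2 y hy x (by simp)
  simp only [List.head?_cons, Option.mem_def, Option.some.injEq] at hz
  subst hz
  rw [hx]
  exact h1

theorem fix_finite {k : ℕ} {c c' : ℕ → Fin k} {H : Subgroup (Perm ℕ)} {g : Perm ℕ}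
    (hg : Gen c c' H g) (hH : ∀ h ∈ H, h ≠ 1 → {x | h x = x}.Finite) :
    ∀ (n : ℕ) (L : List (Bool × Perm ℕ)) (h0 : Perm ℕ), L.length = n → h0 ∈ H →
      (∀ x ∈ L, x.2 ∈ H) → Red L → ev g L * h0 ≠ 1 → {x | (ev g L * h0) x = x}.Finite := by
  intro n
  induction n using Nat.strong_induction_on with
  | _ n IH =>
    intro L h0 hn hh0 hLH hred hne
    rcases List.eq_nil_or_concat L with rfl | ⟨L', ⟨e, h⟩, rfl⟩
    · simp only [ev, one_mul] at hne ⊢
      exact hH h0 hh0 hne
    · simp only [List.concat_eq_append] at *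
      -- conjugate by `h0`
      have hconj : h0 * (ev g (L' ++ [(e, h)]) * h0) * h0⁻¹ = ev g (L' ++ [(e, h0 * h)]) := by
        rw [ev_append, ev_append]
        simp only [ev, one_mul]
        group
      have hne' : ev g (L' ++ [(e, h0 * h)]) ≠ 1 := by
        rw [← hconj]
        intro h1
        apply hne
        have := congrArg (fun f => h0⁻¹ * f * h0) h1
        simpa [mul_assoc] using this
      refine fix_conj (u := h0) ?_
      rw [hconj]
      have hred' : Red (L' ++ [(e, h0 * h)]) := red_last hred rfl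
      have hLH' : ∀ x ∈ L' ++ [(e, h0 * h)], x.2 ∈ H := by
        intro x hx
        rcases List.mem_append.1 hx with hx | hx
        · exact hLH x (List.mem_append.2 (Or.inl hx))
        · rw [List.mem_singleton] at hx
          subst hx
          exact H.mul_mem hh0 (hLH (e, h) (by simp))
      have hlen : (L' ++ [(e, h0 * h)]).length = n := by
        simpa using hn
      have hnpos : 0 < n := by
        rw [← hlen]; simp
      rcases L' with _ | ⟨⟨e1, h1⟩, K⟩
      · refine cyc_fix hg _ n hnpos hlen hLH' hred' ?_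
        intro h2
        exfalso
        apply h2
        simp only [List.nil_append, List.length_singleton] at hlen
        subst hlen
        rfl
      · by_cases hcyc : e1 ≠ e ∧ h0 * h = 1
        · -- cancel
          have hconj2 : gp g e1 * ev g ((e1, h1) :: K ++ [(e, h0 * h)]) * (gp g e1)⁻¹ =
              ev g K * h1 := by
            rw [ev_append, hcyc.2]
            simp only [ev, one_mul]
            have : gp g e1 * (gp g e * (ev g K * (h1 * gp g e1))) * (gp g e1)⁻¹ =
                (gp g e1 * gp g e) * (ev g K * h1) := by group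
            rw [this, gp_mul_gp g hcyc.1, one_mul]
          refine fix_conj (u := gp g e1) ?_
          rw [hconj2]
          refine IH K.length ?_ K h1 rfl (hLH (e1, h1) (by simp)) ?_ ?_ ?_
          · rw [← hlen]; simp
          · intro x hx
            exact hLH x (by simp [hx])
          · have h3 : Red (K ++ [(e, h)]) := List.IsChain.tail hred
            unfold Red at h3
            rw [List.isChain_append] at h3
            exact h3.1
          · rw [← hconj2]
            intro h3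
            apply hne'
            have := congrArg (fun f => (gp g e1)⁻¹ * f * gp g e1) h3
            simpa [mul_assoc] using this
        · refine cyc_fix hg _ n hnpos hlen hLH' hred' ?_
          intro h2 h3
          have hlast : ((e1, h1) :: K ++ [(e, h0 * h)])[n - 1]'(by omega) = (e, h0 * h) := by
            have : n - 1 = ((e1, h1) :: K).length := by
              have := hlen
              simp at this ⊢
              omega
            simp only [this]
            rw [List.getElem_append_right (le_refl _)]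
            simp
          rw [hlast] at h2 h3
          exact hcyc ⟨h2, h3⟩

/-! ### Construction of `g` -/

theorem countable_words (H : Subgroup (Perm ℕ)) (hH : (H : Set (Perm ℕ)).Countable) :
    {w : Perm ℕ × List (Bool × Perm ℕ) | w.1 ∈ H ∧ w.2 ≠ [] ∧ Red w.2 ∧
      ∀ x ∈ w.2, x.2 ∈ H}.Countable := by
  haveI : Countable H := hH.to_subtype
  refine (Set.countable_range (fun w : H × List (Bool × H) =>
    (w.1.1, w.2.map fun x => (x.1, x.2.1)))).mono ?_
  rintro ⟨h0, L⟩ ⟨h1, -, -, h2⟩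
  have : ∀ L : List (Bool × Perm ℕ), (∀ x ∈ L, x.2 ∈ H) →
      ∃ L' : List (Bool × H), L'.map (fun x => (x.1, (x.2 : Perm ℕ))) = L := by
    intro L
    induction L with
    | nil => exact fun _ => ⟨[], rfl⟩
    | cons a L ih =>
      intro h
      obtain ⟨L', hL'⟩ := ih fun x hx => h x (List.mem_cons_of_mem _ hx)
      refine ⟨(a.1, ⟨a.2, h a (by simp)⟩) :: L', ?_⟩
      simp [hL']
  obtain ⟨L', hL'⟩ := this L h2
  exact ⟨(⟨h0, h1⟩, L'), by simp [hL']⟩

theorem exists_g {k : ℕ} {c c' : ℕ → Fin k} (hc : ∀ j, {x | c x = j}.Infinite)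
    (hc' : ∀ j, {x | c' x = j}.Infinite) {x0 x1 : ℕ → Fin (k + 1)}
    (hx1 : ∀ j, {x | x1 x = j}.Infinite) (H : Subgroup (Perm ℕ))
    (hHc : (H : Set (Perm ℕ)).Countable)
    (hH : ∀ h ∈ H, h ≠ 1 → {x | h x = x}.Finite) :
    ∃ g : Perm ℕ, (∀ n, c' (g n) = c n) ∧ Gen c c' H g ∧
      ∀ (L : List (Bool × Perm ℕ)) (h0 : Perm ℕ), h0 ∈ H → L ≠ [] → Red L → (∀ x ∈ L, x.2 ∈ H) →
        ∃ a b, x0 a = x0 b ∧ x1 ((ev g L * h0) a) ≠ x1 ((ev g L * h0) b) := by
  classical
  obtain ⟨hs, hhs⟩ := hHc.exists_eq_range ⟨1, H.one_mem⟩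
  obtain ⟨W, hW⟩ := (countable_words H hHc).exists_eq_range
    ⟨(1, [(true, 1)]), H.one_mem, by simp, List.isChain_singleton _, by
      intro x hx
      rw [List.mem_singleton] at hx
      subst hx
      exact H.one_mem⟩
  have hWmem : ∀ n, (W n).1 ∈ H ∧ (W n).2 ≠ [] ∧ Red (W n).2 ∧ ∀ x ∈ (W n).2, x.2 ∈ H := by
    intro n
    have : W n ∈ range W := ⟨n, rfl⟩
    rw [← hW] at this
    exact this
  let F : ℕ → Set (Perm ℕ) := fun n => hs '' {i | i < n}
  have hFfin : ∀ n, (F n).Finite := fun n => (Set.finite_lt_nat n).image _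
  have hFH : ∀ n, F n ⊆ H := by
    rintro n _ ⟨i, -, rfl⟩
    rw [hhs]
    exact ⟨i, rfl⟩
  have hFmono : ∀ m n, m ≤ n → F m ⊆ F n := by
    intro m n hmn
    exact Set.image_mono fun i hi => lt_of_lt_of_le hi hmn
  have hstep : ∀ (p : {p : Finset (ℕ × ℕ) // Good c c' p}) (n : ℕ),
      ∃ q : {p : Finset (ℕ × ℕ) // Good c c' p}, Ext c c' (F n) p.1 q.1 ∧
        (∃ y, E (q.1 : Set (ℕ × ℕ)) true n y) ∧ (∃ y, E (q.1 : Set (ℕ × ℕ)) false n y) ∧
        ∃ a b z z', Route (q.1 : Set (ℕ × ℕ)) (W n).2 ((W n).1 a) z ∧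
          Route (q.1 : Set (ℕ × ℕ)) (W n).2 ((W n).1 b) z' ∧ x0 a = x0 b ∧ x1 z ≠ x1 z' := by
    rintro ⟨p, hp⟩ n
    obtain ⟨q1, hq1, y1, hy1⟩ := extend hc hc' (hFfin n) (fun h hh => hH h (hFH n hh)) p hp true n
    have hg1 := hq1.good hp
    obtain ⟨q2, hq2, y2, hy2⟩ := extend hc hc' (hFfin n) (fun h hh => hH h (hFH n hh)) q1 hg1
      false n
    have hg2 := hq2.good hg1
    let F' : Set (Perm ℕ) := F n ∪ {h | ∃ x ∈ (W n).2, x.2 = h}
    have hF'fin : F'.Finite := by
      refine (hFfin n).union ?_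
      have : {h | ∃ x ∈ (W n).2, x.2 = h} = (((W n).2.map Prod.snd).toFinset : Set (Perm ℕ)) := by
        ext h; simp
      rw [this]; exact Finset.finite_toSet _
    have hF'H : ∀ h ∈ F', h ∈ H := by
      rintro h (hh | ⟨x, hx, rfl⟩)
      · exact hFH n hh
      · exact (hWmem n).2.2.2 x hx
    obtain ⟨q3, hq3, a, b, z, z', hr1, hr2, hab, hzz⟩ := task (x0 := x0) hc hc' hx1 (W n).1 (W n).2
      (hWmem n).2.1 (hWmem n).2.2.1 hF'fin (fun h hh => hH h (hF'H h hh))
      (fun x hx => Or.inr ⟨x, hx, rfl⟩) q2 hg2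
    have hq3' : Ext c c' (F n) q2 q3 := hq3.mono subset_union_left
    refine ⟨⟨q3, hq3.good hg2⟩, (hq1.trans hq2).trans hq3', ⟨y1, ?_⟩, ⟨y2, ?_⟩, a, b, z, z', hr1, hr2,
      hab, hzz⟩
    · exact hy1.mono (by exact_mod_cast (hq2.subset.trans hq3.subset))
    · exact hy2.mono (by exact_mod_cast hq3.subset)
  choose nxt hn1 hn2 hn3 hn4 using hstep
  let P : ℕ → {p : Finset (ℕ × ℕ) // Good c c' p} := fun n =>
    Nat.rec ⟨∅, ⟨by simp, by simp, by simp⟩⟩ (fun n p => nxt p n) n
  have hP : ∀ n, P (n + 1) = nxt (P n) n := fun n => rfl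
  have hExt : ∀ N M, N ≤ M → Ext c c' (F N) (P N).1 (P M).1 := by
    intro N M hNM
    induction M, hNM using Nat.le_induction with
    | base => exact Relation.ReflTransGen.refl
    | succ M hNM ih =>
      refine ih.trans ?_
      rw [hP]
      exact (hn1 (P M) M).mono (hFmono N M hNM)
  have hsub : ∀ N M, N ≤ M → (P N).1 ⊆ (P M).1 := fun N M h => (hExt N M h).subset
  let Gr : Set (ℕ × ℕ) := ⋃ n, ((P n).1 : Set (ℕ × ℕ))
  have hGr : ∀ n, ((P n).1 : Set (ℕ × ℕ)) ⊆ Gr := fun n =>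
    Set.subset_iUnion (fun n => ((P n).1 : Set (ℕ × ℕ))) n
  have hcommon : ∀ z ∈ Gr, ∀ z' ∈ Gr, ∃ n, z ∈ (P n).1 ∧ z' ∈ (P n).1 := by
    intro z hz z' hz'
    obtain ⟨n, hn⟩ := mem_iUnion.1 hz
    obtain ⟨n', hn'⟩ := mem_iUnion.1 hz'
    exact ⟨max n n', hsub _ _ (le_max_left _ _) hn, hsub _ _ (le_max_right _ _) hn'⟩
  have htot : ∀ n, ∃ y, (n, y) ∈ Gr := by
    intro n
    obtain ⟨y, hy⟩ := hn2 (P n) n
    exact ⟨y, hGr (n + 1) (by simpa [E, hP] using hy)⟩
  have hsurj : ∀ n, ∃ y, (y, n) ∈ Gr := by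
    intro n
    obtain ⟨y, hy⟩ := hn3 (P n) n
    exact ⟨y, hGr (n + 1) (by simpa [E, hP] using hy)⟩
  choose f hf using htot
  have hfun : ∀ a b, (a, b) ∈ Gr → f a = b := by
    intro a b hab
    obtain ⟨n, h1, h2⟩ := hcommon _ hab _ (hf a)
    exact (P n).2.inj1 _ _ _ h2 h1
  have hbij : Function.Bijective f := by
    constructor
    · intro a a' haa
      obtain ⟨n, h1, h2⟩ := hcommon _ (hf a) _ (hf a')
      rw [← haa] at h2
      exact (P n).2.inj2 _ _ _ h1 h2
    · intro b
      obtain ⟨a, ha⟩ := hsurj b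
      exact ⟨a, hfun _ _ ha⟩
  let g : Perm ℕ := Equiv.ofBijective f hbij
  have hgGr : Graph g = Gr := by
    ext ⟨a, b⟩
    constructor
    · intro h
      have h' : f a = b := h
      rw [← h']
      exact hf a
    · intro h
      exact hfun _ _ h
  refine ⟨g, ?_, ?_, ?_⟩
  · intro n
    obtain ⟨m, hm⟩ := mem_iUnion.1 (hf n)
    exact (P m).2.col _ _ hm
  · intro F0 hF0 hF0H
    obtain ⟨N, hN⟩ : ∃ N, F0 ⊆ F N := by
      have : ∀ h ∈ F0, ∃ i, hs i = h := by
        intro h hh
        have := hF0H hh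
        rw [hhs] at this
        exact this
      choose! idx hidx using this
      obtain ⟨N, hN⟩ := (hF0.image idx).bddAbove
      refine ⟨N + 1, fun h hh => ⟨idx h, ?_, hidx h hh⟩⟩
      exact Nat.lt_succ_of_le (hN ⟨h, hh, rfl⟩)
    refine ⟨(P N).1, fun S hS => ?_⟩
    rw [hgGr] at hS
    obtain ⟨M, hM⟩ : ∃ M, S ⊆ (P M).1 := by
      induction S using Finset.induction_on with
      | empty => exact ⟨0, Finset.empty_subset _⟩
      | insert a S ha ih =>
        rw [Finset.coe_insert, Set.insert_subset_iff] at hS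
        obtain ⟨M, hM⟩ := ih hS.2
        obtain ⟨M', hM'⟩ := mem_iUnion.1 hS.1
        refine ⟨max M M', Finset.insert_subset_iff.2 ⟨hsub _ _ (le_max_right _ _) hM', hM.trans
          (hsub _ _ (le_max_left _ _))⟩⟩
    exact ⟨(P (max N M)).1, (hExt N _ (le_max_left _ _)).mono hN, hM.trans
      (hsub _ _ (le_max_right _ _))⟩
  · intro L h0 hh0 hL hred hLH
    have hw : (h0, L) ∈ range W := by
      rw [← hW]
      exact ⟨hh0, hL, hred, hLH⟩
    obtain ⟨n, hn⟩ := hw
    obtain ⟨a, b, z, z', hr1, hr2, hab, hzz⟩ := hn4 (P n) n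
    rw [hn] at hr1 hr2
    have hle : ((nxt (P n) n).1 : Set (ℕ × ℕ)) ⊆ Graph g := by
      rw [hgGr, ← hP]
      exact hGr (n + 1)
    have h1 := route_graph L _ _ (hr1.mono hle)
    have h2 := route_graph L _ _ (hr2.mono hle)
    refine ⟨a, b, hab, ?_⟩
    simp only [Perm.mul_apply]
    rw [h1, h2]
    exact hzz

/-- the two preserved properties of a group -/
def Nice {k : ℕ} (x0 x1 : ℕ → Fin (k + 1)) (H : Subgroup (Perm ℕ)) : Prop :=
  (∀ h ∈ H, h ≠ 1 → {x | h x = x}.Finite) ∧
    ∀ h ∈ H, ∃ a b, x0 a = x0 b ∧ x1 (h a) ≠ x1 (h b)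

theorem one_step {k : ℕ} {c c' : ℕ → Fin k} (hc : ∀ j, {x | c x = j}.Infinite)
    (hc' : ∀ j, {x | c' x = j}.Infinite) {x0 x1 : ℕ → Fin (k + 1)}
    (hx1 : ∀ j, {x | x1 x = j}.Infinite) (H : Subgroup (Perm ℕ))
    (hHc : (H : Set (Perm ℕ)).Countable) (hH : Nice x0 x1 H) :
    ∃ g : Perm ℕ, (∀ n, c' (g n) = c n) ∧
      Nice x0 x1 (Subgroup.closure ((H : Set (Perm ℕ)) ∪ {g})) := by
  obtain ⟨g, hg1, hg2, hg3⟩ := exists_g (x0 := x0) hc hc' hx1 H hHc hH.1
  refine ⟨g, hg1, ?_, ?_⟩
  · intro f hf hf1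
    obtain ⟨L, h0, hh0, hL, hred, rfl⟩ := exists_rep hf
    exact fix_finite hg2 hH.1 L.length L h0 rfl hh0 hL hred hf1
  · intro f hf
    obtain ⟨L, h0, hh0, hL, hred, rfl⟩ := exists_rep hf
    rcases L with _ | ⟨x, L⟩
    · simp only [ev, one_mul]
      exact hH.2 h0 hh0
    · exact hg3 _ h0 hh0 (by simp) hred hL

theorem Nice.le {k : ℕ} {x0 x1 : ℕ → Fin (k + 1)} {H H' : Subgroup (Perm ℕ)} (h : Nice x0 x1 H)
    (hle : H' ≤ H) : Nice x0 x1 H' :=
  ⟨fun f hf => h.1 f (hle hf), fun f hf => h.2 f (hle hf)⟩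

/-! ### The recursion -/

theorem closure_countable' {C : Set (Perm ℕ)} (hC : C.Countable) :
    ((Subgroup.closure C : Subgroup (Perm ℕ)) : Set (Perm ℕ)).Countable := by
  have := hC.to_subtype
  have h1 : Subgroup.closure C ≤ (FreeGroup.lift (Subtype.val : C → Perm ℕ)).range := by
    rw [Subgroup.closure_le]
    intro x hx
    exact ⟨FreeGroup.of ⟨x, hx⟩, by simp⟩
  have h2 : (((FreeGroup.lift (Subtype.val : C → Perm ℕ)).range : Subgroup (Perm ℕ)) :
      Set (Perm ℕ)).Countable := Set.countable_range _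
  exact h2.mono h1

def Kle {I : Type} [LinearOrder I] (D : I → Perm ℕ) (j : I) : Subgroup (Perm ℕ) :=
  Subgroup.closure (D '' {l | l ≤ j})

theorem mem_directed {I : Type} [LinearOrder I] (D : I → Perm ℕ) (s : Set I) {f : Perm ℕ}
    (hf : f ∈ Subgroup.closure (D '' s)) : f = 1 ∨ ∃ j ∈ s, f ∈ Kle D j := by
  have hmono : ∀ j j', j ≤ j' → Kle D j ≤ Kle D j' := by
    intro j j' h
    exact Subgroup.closure_mono (Set.image_mono fun l hl => le_trans hl h)
  induction hf using Subgroup.closure_induction with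
  | mem x hx =>
    obtain ⟨j, hj, rfl⟩ := hx
    exact Or.inr ⟨j, hj, Subgroup.subset_closure ⟨j, le_rfl, rfl⟩⟩
  | one => exact Or.inl rfl
  | mul x y _ _ hx hy =>
    rcases hx with rfl | ⟨j, hj, hx⟩
    · rwa [one_mul]
    · rcases hy with rfl | ⟨j', hj', hy⟩
      · rw [mul_one]; exact Or.inr ⟨j, hj, hx⟩
      · right
        rcases le_total j j' with h | h
        · exact ⟨j', hj', Subgroup.mul_mem _ (hmono _ _ h hx) hy⟩
        · exact ⟨j, hj, Subgroup.mul_mem _ hx (hmono _ _ h hy)⟩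
  | inv x _ hx =>
    rcases hx with rfl | ⟨j, hj, hx⟩
    · left; simp
    · exact Or.inr ⟨j, hj, Subgroup.inv_mem _ hx⟩

/-- the residue colouring -/
def md (m : ℕ) (hm : 0 < m) : ℕ → Fin m := fun n => ⟨n % m, Nat.mod_lt _ hm⟩

theorem md_infinite (m : ℕ) (hm : 0 < m) (j : Fin m) : {x | md m hm x = j}.Infinite := by
  refine Set.infinite_of_injective_forall_mem (f := fun t : ℕ => j.1 + m * t) ?_ ?_
  · intro a b h
    have h1 : j.1 + m * a = j.1 + m * b := h
    exact Nat.eq_of_mul_eq_mul_left hm (by omega)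
  · intro t
    simp only [md, Set.mem_setOf_eq]
    ext
    simp [Nat.mod_eq_of_lt j.2]

theorem exists_group (hCH : Cardinal.aleph 1 = Cardinal.continuum.{0}) {k : ℕ} (hk : 0 < k)
    {x0 x1 : ℕ → Fin (k + 1)} (hx1 : ∀ j, {x | x1 x = j}.Infinite)
    (hbase : ∃ a b, x0 a = x0 b ∧ x1 a ≠ x1 b) :
    ∃ G : Subgroup (Perm ℕ), Nice x0 x1 G ∧
      ∀ c : ℕ → Fin k, (∀ j, {x | c x = j}.Infinite) → ∃ g ∈ G, ∀ n, c (g n) = md k hk n := by
  classical
  let I : Type := (Cardinal.aleph 1 : Cardinal.{0}).ord.ToType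
  have hI : ∀ i : I, {j : I | j < i}.Countable := fun i => by
    have h := Cardinal.mk_Iio_lt i (by simp [I])
    rw [Cardinal.mk_ord_toType] at h
    have h2 : #(Set.Iio i) ≤ Cardinal.aleph0 := by
      rw [← Order.lt_succ_iff, Cardinal.succ_aleph0]
      exact h
    exact (Cardinal.mk_le_aleph0_iff.1 h2).to_set
  let C : Type := {c : ℕ → Fin k // ∀ j, {x | c x = j}.Infinite}
  have hcard : #C ≤ #I := by
    have h1 : #C ≤ #(ℕ → Fin k) := Cardinal.mk_subtype_le _
    refine h1.trans ?_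
    rw [Cardinal.mk_ord_toType, hCH]
    have h2 : #(ℕ → Fin k) ≤ #(ℕ → ℕ) :=
      Cardinal.mk_le_of_injective (f := fun (c : ℕ → Fin k) (n : ℕ) => (c n : ℕ)) (by
        intro c c' h
        funext n
        exact Fin.ext (congrFun h n))
    refine h2.trans ?_
    simp
  obtain ⟨ι⟩ := (Cardinal.le_def _ _).mp hcard
  haveI : Nonempty C := ⟨⟨md k hk, md_infinite k hk⟩⟩
  let e : I → C := Function.invFun ι
  have he : Function.Surjective e := Function.invFun_surjective ι.injective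
  let Phi : I → (I → Perm ℕ) → Perm ℕ → Prop := fun i D x =>
    Nice x0 x1 (Subgroup.closure (D '' {j | j < i})) →
      (∀ n, (e i).1 (x n) = md k hk n) ∧
      Nice x0 x1 (Subgroup.closure
        (((Subgroup.closure (D '' {j | j < i}) : Subgroup (Perm ℕ)) : Set (Perm ℕ)) ∪ {x}))
  obtain ⟨D, hD⟩ := exists_rec Phi (by
    intro i D D' x h hx
    have : D '' {j | j < i} = D' '' {j | j < i} := Set.image_congr fun j hj => h j hj
    simp only [Phi, ← this]
    exact hx) (by
    intro i D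
    by_cases hN : Nice x0 x1 (Subgroup.closure (D '' {j | j < i}))
    · obtain ⟨g, hg1, hg2⟩ := one_step (md_infinite k hk) (e i).2 hx1 _
        (closure_countable' ((hI i).image D)) hN
      exact ⟨g, fun _ => ⟨hg1, hg2⟩⟩
    · exact ⟨1, fun h => absurd h hN⟩)
  have hKle : ∀ i, Nice x0 x1 (Subgroup.closure (D '' {j | j < i})) → Nice x0 x1 (Kle D i) := by
    intro i hi
    refine (hD i hi).2.le ?_
    unfold Kle
    rw [Subgroup.closure_le]
    rintro _ ⟨l, hl, rfl⟩
    rcases lt_or_eq_of_le (show l ≤ i from hl) with h | h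
    · exact Subgroup.subset_closure (Or.inl (Subgroup.subset_closure ⟨l, h, rfl⟩))
    · subst h
      exact Subgroup.subset_closure (Or.inr rfl)
  have hset : ∀ s : Set I, (∀ j ∈ s, Nice x0 x1 (Kle D j)) →
      Nice x0 x1 (Subgroup.closure (D '' s)) := by
    intro s hs
    constructor
    · intro f hf hf1
      rcases mem_directed D s hf with h | ⟨j, hj, h⟩
      · exact absurd h hf1
      · exact (hs j hj).1 f h hf1
    · intro f hf
      rcases mem_directed D s hf with rfl | ⟨j, hj, h⟩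
      · exact hbase
      · exact (hs j hj).2 f h
  have hall : ∀ i, Nice x0 x1 (Subgroup.closure (D '' {j | j < i})) := by
    intro i
    induction i using WellFoundedLT.induction with
    | ind i IH => exact hset _ fun j hj => hKle j (IH j hj)
  refine ⟨Subgroup.closure (D '' Set.univ), hset _ fun j _ => hKle j (hall j), ?_⟩
  intro c hc
  obtain ⟨i, hi⟩ := he ⟨c, hc⟩
  refine ⟨D i, Subgroup.subset_closure ⟨i, Set.mem_univ _, rfl⟩, ?_⟩
  have := (hD i (hall i)).1
  rw [hi] at this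
  exact this

/-! ### Sections and colourings -/

theorem exists_colouring {k : ℕ} {P : Set (Set ℕ)} (hP : IsSection k P) :
    ∃ c : ℕ → Fin k, (∀ j, {x | c x = j}.Infinite) ∧ P = Set.range fun j => {x | c x = j} := by
  classical
  obtain ⟨h1, h2, h3, h4, h5⟩ := hP
  haveI : Fintype P := h1.fintype
  have hcard : Fintype.card P = k := by
    rw [← h2, Set.ncard_eq_toFinset_card', Set.toFinset_card]
  let e : Fin k ≃ P := (Fintype.equivFinOfCardEq hcard).symm
  have hx : ∀ x : ℕ, ∃ j, x ∈ (e j).1 := by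
    intro x
    have : x ∈ ⋃₀ P := by rw [h5]; trivial
    obtain ⟨A, hA, hxA⟩ := this
    exact ⟨e.symm ⟨A, hA⟩, by simpa using hxA⟩
  choose c hc using hx
  have hfib : ∀ j, {x | c x = j} = (e j).1 := by
    intro j
    ext x
    constructor
    · intro h
      have h' : c x = j := h
      rw [← h']
      exact hc x
    · intro h
      by_contra hne
      have hne' : (e (c x)).1 ≠ (e j).1 := fun h => hne (e.injective (Subtype.ext h))
      exact Set.disjoint_left.1 (h4 _ (e (c x)).2 _ (e j).2 hne') (hc x) h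
  refine ⟨c, fun j => by rw [hfib]; exact h3 _ (e j).2, ?_⟩
  ext A
  constructor
  · intro hA
    exact ⟨e.symm ⟨A, hA⟩, by simp only [hfib]; simp⟩
  · rintro ⟨j, rfl⟩
    simp only [hfib]
    exact (e j).2

theorem section_of_colouring {k : ℕ} {c : ℕ → Fin k} (hc : ∀ j, {x | c x = j}.Infinite) :
    IsSection k (Set.range fun j => {x | c x = j}) := by
  have hinj : Function.Injective fun j => {x | c x = j} := by
    intro j j' h
    obtain ⟨x, hx⟩ := (hc j).nonempty
    have hx' : x ∈ {x | c x = j'} := by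
      have h' : {x | c x = j} = {x | c x = j'} := h
      rw [← h']; exact hx
    exact (show c x = j from hx).symm.trans hx'
  refine ⟨Set.finite_range _, ?_, ?_, ?_, ?_⟩
  · rw [← Set.image_univ, Set.ncard_image_of_injective _ hinj, Set.ncard_univ]
    simp
  · rintro _ ⟨j, rfl⟩
    exact hc j
  · rintro _ ⟨j, rfl⟩ _ ⟨j', rfl⟩ hne
    rw [Set.disjoint_left]
    intro x hx hx'
    apply hne
    have : j = j' := (show c x = j from hx).symm.trans hx'
    rw [this]
  · ext x
    simp only [Set.mem_sUnion, Set.mem_range, Set.mem_univ, iff_true]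
    exact ⟨_, ⟨c x, rfl⟩, rfl⟩

theorem ch_result (hCH : Cardinal.aleph 1 = Cardinal.continuum.{0}) (k : ℕ) (hk : 2 ≤ k) :
    ∃ G : Subgroup (Perm ℕ), TransOnSections G k ∧ ¬ TransOnSections G (k + 1) ∧
      ∀ g ∈ G, g ≠ 1 → {x | g x = x}.Finite := by
  classical
  have hk0 : 0 < k := by omega
  let x0 : ℕ → Fin (k + 1) := md (k + 1) (by omega)
  let x1 : ℕ → Fin (k + 1) := fun n => x0 (Equiv.swap 0 1 n)
  have hx0 : ∀ j, {x | x0 x = j}.Infinite := md_infinite (k + 1) (by omega)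
  have hx1 : ∀ j, {x | x1 x = j}.Infinite := fun j => preim_infinite (Equiv.swap 0 1) (hx0 j)
  obtain ⟨G, hG, hGc⟩ := exists_group hCH hk0 (x0 := x0) hx1 (by
    refine ⟨0, k + 1, ?_, ?_⟩
    · simp [x0, md]
    · have h1 : x1 0 = x0 1 := by simp [x1]
      have h2 : x1 (k + 1) = x0 (k + 1) := by
        simp only [x1]
        rw [Equiv.swap_apply_of_ne_of_ne (by omega) (by omega)]
      rw [h1, h2]
      intro h
      have := congrArg Fin.val h
      simp only [x0, md, Nat.mod_self] at this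
      rw [Nat.mod_eq_of_lt (by omega)] at this
      exact one_ne_zero this)
  refine ⟨G, ?_, ?_, hG.1⟩
  · intro P Q hP hQ
    obtain ⟨c, hc, rfl⟩ := exists_colouring hP
    obtain ⟨c', hc', rfl⟩ := exists_colouring hQ
    obtain ⟨g, hg, hgc⟩ := hGc c hc
    obtain ⟨g', hg', hgc'⟩ := hGc c' hc'
    refine ⟨g' * g⁻¹, G.mul_mem hg' (G.inv_mem hg), ?_⟩
    have key : ∀ n, c' ((g' * g⁻¹) n) = c n := by
      intro n
      rw [Perm.mul_apply, hgc', ← hgc]
      simp
    rw [← Set.range_comp]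
    congr 1
    funext j
    ext z
    constructor
    · rintro ⟨x, hx, rfl⟩
      show c' _ = j
      rw [key]
      exact hx
    · intro hz
      refine ⟨(g' * g⁻¹)⁻¹ z, ?_, by simp⟩
      show c _ = j
      rw [← key]
      have : (g' * g⁻¹) ((g' * g⁻¹)⁻¹ z) = z := by
        rw [← Perm.mul_apply, mul_inv_cancel, Perm.one_apply]
      rw [this]
      exact hz
  · intro hT
    obtain ⟨g, hg, hgP⟩ := hT _ _ (section_of_colouring hx0) (section_of_colouring hx1)
    obtain ⟨a, b, hab, hne⟩ := hG.2 g hg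
    have hA : (fun A : Set ℕ => g '' A) {x | x0 x = x0 a} ∈
        Set.range fun j => {x | x1 x = j} := by
      rw [← hgP]
      exact ⟨_, ⟨x0 a, rfl⟩, rfl⟩
    obtain ⟨j, hj⟩ := hA
    have hj' : {x | x1 x = j} = g '' {x | x0 x = x0 a} := hj
    have h1 : g a ∈ {x | x1 x = j} := by rw [hj']; exact ⟨a, rfl, rfl⟩
    have h2 : g b ∈ {x | x1 x = j} := by rw [hj']; exact ⟨b, hab.symm, rfl⟩
    exact hne ((show x1 (g a) = j from h1).trans (show x1 (g b) = j from h2).symm)

/-- No hypothesis is assumed. (1) There is a notion of forcing `P` all of whose conditions force that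
`ω₁` is preserved and that the continuum hypothesis holds. (2) The continuum hypothesis implies that
for every `k ≥ 2` there is a group of permutations of `ℕ` which is transitive on `k`-sections but
not transitive on `(k + 1)`-sections (and each of whose nonidentity elements has only finitely many
fixed points). -/
theorem result :
    (∃ (P : Type) (_ : Preorder P), Nonempty P ∧ ∀ p : P,
      p ∈ Pool.Agent.Helper292.ForceCH.OmegaOnePreserved P ∧
      p ∈ Pool.Agent.Helper292.ForceCH.CHHolds P) ∧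
    (Cardinal.aleph 1 = Cardinal.continuum.{0} →
      ∀ k : ℕ, 2 ≤ k → ∃ G : Subgroup (Perm ℕ),
        TransOnSections G k ∧ ¬ TransOnSections G (k + 1) ∧
        ∀ g ∈ G, g ≠ 1 → {x | g x = x}.Finite) := by
  refine ⟨?_, fun h k hk => ch_result h k hk⟩
  obtain ⟨P, i, h1, h2⟩ := Pool.Agent.Helper292.ForceCH.exists_forcing
  exact ⟨P, i, h1, fun p => ⟨(h2 p).1, (h2 p).2.2⟩⟩

end Pool.Agent.Results.MP_618ed1_al.ConsistentlyYes
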